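import Pool.Agent.MP_3f847c_gt.Main

open Pool.Agent.MP_3f847c_gt

theorem Pool.Agent.Results.MP_3f847c_gt.Counterexample.result :
    ∃ (X : Type) (_ : TopologicalSpace X), T35Space X ∧
      ∃ K : Set (X → ℝ), (∀ f ∈ K, ScatteredlyContinuous f) ∧ IsCompact K ∧ Convex ℝ K ∧
        TopologicalSpace.networkWeight X < weight K :=
  counterexample
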